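import Mathlib
import Pool.Agent.H23.EW.MainD

set_option autoImplicit false

/-!
# Forbidden subgraphs with at most `2 ^ 18` vertices (MP_257582_lc)

Let `H` be a graph with an edge and at most `2 ^ 18 = 262144` vertices. The property of containing
`H` is evasive for all large `n`. More generally this holds for the property of containing a member
of a family `𝓕` if every member has an edge, every member has at most `2 ^ 18` vertices or, more
generally, `𝓕` is stable at `b ≤ 2 ^ 18` (if some blow-up of a graph `Γ` contains a member, then so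
does the `b`-fold blow-up of `Γ`) and some member has at most `2 ^ 18` vertices. The bound for `n`
is explicit, and it is `42000` if `2 ^ 18` is replaced by `8`, and `400` if it is replaced by `4`.

Proof. The 23 numbers `2 * 3 ^ j + 1` with `j = 16, 17, 30, ..., 13782, 17720` are primes, and the
sums of different primes of this list represent all residue classes modulo `2 ^ 18`. Hence one can
cut the vertex set into fields of the orders `2 ^ 18` and `2 ^ 19` and a few cyclic groups of
different prime orders `s = 2 * 3 ^ j + 1`. The translations of the fields (a group of order `2 ^ a`),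
one element which multiplies every field by a generator and rotates every cyclic group by `1`, and
one element of 3-power order which multiplies every cyclic group by an element of order `3 ^ j`
generate a group of Oliver type. All the pairs inside a block form one orbit, and so do the pairs
between two blocks; the invariant graphs without a member correspond to the graphs on the set of the
blocks into which no member has a homomorphism. If the property is not evasive, their signed number
is `0` modulo 3. But this number depends only on the number of blocks modulo `3 ^ 27 - 1` (library)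
and is `1` for one block; as `2 - 1` is coprime to everything, the numbers of the blocks of the
orders `2 ^ 18` and `2 ^ 19` can be chosen so that the number of all blocks is `1` modulo
`3 ^ 27 - 1`.
-/

namespace Pool.Agent.Results.MP_257582_lc.AllLargeOrders

/-- `P` is evasive: every strategy `σ` (the next pair to be queried depends only on the answers to
the queries made so far) needs all `n.choose 2` queries: there are two graphs that agree on the
first `n.choose 2 - 1` queried pairs, one with and one without `P`. -/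
def Evasive {n : ℕ} (P : SimpleGraph (Fin n) → Prop) : Prop :=
  ∀ σ : Finset (Sym2 (Fin n)) → SimpleGraph (Fin n) → Sym2 (Fin n),
    (∀ (Q : Finset (Sym2 (Fin n))) (G H : SimpleGraph (Fin n)),
        (∀ e ∈ Q, (e ∈ G.edgeSet ↔ e ∈ H.edgeSet)) → σ Q G = σ Q H) →
    ∃ G H : SimpleGraph (Fin n),
      (∀ e ∈ (fun Q : Finset (Sym2 (Fin n)) => insert (σ Q G) Q)^[n.choose 2 - 1]
            (∅ : Finset (Sym2 (Fin n))),
          (e ∈ G.edgeSet ↔ e ∈ H.edgeSet)) ∧ P G ∧ ¬ P H

/-- `G` contains a member of the family `𝓕` as a (not necessarily induced) subgraph. -/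
def ContainsMember (𝓕 : Set (Σ k : ℕ, SimpleGraph (Fin k))) {V : Type} (G : SimpleGraph V) :
    Prop :=
  ∃ F ∈ 𝓕, ∃ f : Fin F.1 → V, Function.Injective f ∧ ∀ x y, F.2.Adj x y → G.Adj (f x) (f y)

/-- The `b`-fold blow-up of `G`: every vertex is replaced by `b` independent vertices and every
edge by a complete bipartite graph. -/
def BlowUp {V : Type} (G : SimpleGraph V) (b : ℕ) : SimpleGraph (V × Fin b) where
  Adj x y := G.Adj x.1 y.1
  symm := ⟨fun _ _ h => h.symm⟩
  loopless := ⟨fun x h => G.loopless.irrefl x.1 h⟩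

/-- `𝓕` is stable at `b`: if some blow-up of a finite graph contains a member of `𝓕`, then so does
its `b`-fold blow-up. -/
def StableAt (𝓕 : Set (Σ k : ℕ, SimpleGraph (Fin k))) (b : ℕ) : Prop :=
  ∀ (m N : ℕ) (Γ : SimpleGraph (Fin m)),
    ContainsMember 𝓕 (BlowUp Γ N) → ContainsMember 𝓕 (BlowUp Γ b)

theorem containsMember_iff (𝓕 : Set (Σ k : ℕ, SimpleGraph (Fin k))) {V : Type}
    (G : SimpleGraph V) : ContainsMember 𝓕 G ↔ Pool.Agent.H98R2.Nb.Has 𝓕 G := by
  constructor
  · rintro ⟨F, hF, f, hf, hadj⟩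
    exact ⟨F, hF, ⟨⟨⟨f, fun {x y} h => hadj x y h⟩, hf⟩⟩⟩
  · rintro ⟨F, hF, ⟨f⟩⟩
    exact ⟨F, hF, f, f.injective, fun x y h => f.toHom.map_adj h⟩

theorem evasive_iff (𝓕 : Set (Σ k : ℕ, SimpleGraph (Fin k))) (n : ℕ) :
    Evasive (fun G : SimpleGraph (Fin n) => ContainsMember 𝓕 G) ↔
      Pool.Agent.W5h82.Ev.Evas (fun G : SimpleGraph (Fin n) => Pool.Agent.H98R2.Nb.Has 𝓕 G) := by
  have h : (fun G : SimpleGraph (Fin n) => ContainsMember 𝓕 G) =
      (fun G : SimpleGraph (Fin n) => Pool.Agent.H98R2.Nb.Has 𝓕 G) :=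
    funext fun G => propext (containsMember_iff 𝓕 G)
  rw [h]
  rfl

theorem stable_of (𝓕 : Set (Σ k : ℕ, SimpleGraph (Fin k))) (b : ℕ)
    (h : (∀ F ∈ 𝓕, F.1 ≤ b) ∨ StableAt 𝓕 b) : Pool.Agent.W5h82.Ev.StableAt 𝓕 b := by
  intro m N Γ hΓ
  rcases h with h | h
  · obtain ⟨F, hF, ⟨f⟩⟩ := hΓ
    refine ⟨F, hF, ⟨⟨⟨fun x => ((f x).1, Fin.castLE (h F hF) x), fun {x y} hxy => ?_⟩, ?_⟩⟩⟩
    · exact f.toHom.map_adj hxy
    · intro x y hxy
      exact Fin.castLE_injective (h F hF) (congrArg Prod.snd hxy)
  · exact (containsMember_iff 𝓕 _).1 (h m N Γ ((containsMember_iff 𝓕 _).2 hΓ))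

/-- the bounds for the number of vertices of a forbidden graph and for `n` -/
def Bounds (v N : ℕ) : Prop :=
  (v = 2 ^ 18 ∧ N = 3 ^ 17721) ∨ (v = 8 ∧ N = 42000) ∨ (v = 4 ∧ N = 400)

theorem families (𝓕 : Set (Σ k : ℕ, SimpleGraph (Fin k))) (hedge : ∀ F ∈ 𝓕, F.2 ≠ ⊥) (b : ℕ)
    (hst : (∀ F ∈ 𝓕, F.1 ≤ b) ∨ StableAt 𝓕 b) (v N : ℕ) (hvN : Bounds v N) (hb : b ≤ v)
    (hF : ∃ F ∈ 𝓕, F.1 ≤ v) (n : ℕ) (hn : N ≤ n) :
    Evasive (fun G : SimpleGraph (Fin n) => ContainsMember 𝓕 G) := by
  have hst' := stable_of 𝓕 b hst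
  rw [evasive_iff]
  obtain ⟨F, hF1, hF2⟩ := hF
  rcases hvN with ⟨hv, hN⟩ | ⟨rfl, rfl⟩ | ⟨rfl, rfl⟩
  · exact Pool.Agent.H23.EW.evas_large hedge hst' (hb.trans hv.le) F hF1 (hF2.trans hv.le) n N hN hn
  · exact Pool.Agent.H23.EW.evas_tiny hedge hst' hb F hF1 hF2 n hn
  · exact Pool.Agent.H23.EW.evas_four hedge hst' hb F hF1 hF2 n hn

/-- **Forbidden subgraphs with at most `2 ^ 18` vertices**: the property of containing a given
graph `H` with an edge and at most `2 ^ 18` vertices is evasive for all `n ≥ 3 ^ 17721`, for all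
`n ≥ 42000` if `H` has at most 8 vertices, for all `n ≥ 400` if `H` has at most 4 vertices. The same
holds for the property of containing a member of a family. -/
theorem result :
    (∀ (k : ℕ) (H : SimpleGraph (Fin k)), H ≠ ⊥ → ∀ v N : ℕ, Bounds v N → k ≤ v →
      ∀ n : ℕ, N ≤ n → Evasive (fun G : SimpleGraph (Fin n) => H.IsContained G)) ∧
    (∀ 𝓕 : Set (Σ k : ℕ, SimpleGraph (Fin k)), (∀ F ∈ 𝓕, F.2 ≠ ⊥) → ∀ b : ℕ,
      ((∀ F ∈ 𝓕, F.1 ≤ b) ∨ StableAt 𝓕 b) → ∀ v N : ℕ, Bounds v N → b ≤ v →
      (∃ F ∈ 𝓕, F.1 ≤ v) → ∀ n : ℕ, N ≤ n →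
      Evasive (fun G : SimpleGraph (Fin n) => ContainsMember 𝓕 G)) := by
  constructor
  · intro k H hH v N hvN hk n hn
    have h1 := families {⟨k, H⟩} (by
      intro F hF
      rw [Set.mem_singleton_iff] at hF
      subst hF
      exact hH) k (Or.inl (by
        intro F hF
        rw [Set.mem_singleton_iff] at hF
        subst hF
        exact le_rfl)) v N hvN hk ⟨⟨k, H⟩, rfl, hk⟩ n hn
    have h2 : (fun G : SimpleGraph (Fin n) => ContainsMember {⟨k, H⟩} G) =
        (fun G : SimpleGraph (Fin n) => H.IsContained G) := by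
      funext G
      apply propext
      constructor
      · rintro ⟨F, hF, f, hf, hadj⟩
        rw [Set.mem_singleton_iff] at hF
        subst hF
        exact ⟨⟨⟨f, fun {x y} h => hadj x y h⟩, hf⟩⟩
      · rintro ⟨f⟩
        exact ⟨⟨k, H⟩, rfl, f, f.injective, fun x y h => f.toHom.map_adj h⟩
    rw [h2] at h1
    exact h1
  · intro 𝓕 hedge b hst v N hvN hb hF n hn
    exact families 𝓕 hedge b hst v N hvN hb hF n hn

end Pool.Agent.Results.MP_257582_lc.AllLargeOrders
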