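import Mathlib
import Pool.Agent.H23.EV.Main

set_option autoImplicit false

/-!
# Forbidden 3- and 4-colourable subgraphs (MP_257582_lc)

Let `𝓕` be a non-empty family of finite graphs, each with an edge, and let `b` be such that every
member has at most `b` vertices or, more generally, that `𝓕` is stable at `b` (if some blow-up of a
graph `Γ` contains a member, then so does the `b`-fold blow-up of `Γ`). The property of `n`-vertex
graphs of containing a member of `𝓕` is evasive

* if some member is 3-colourable: for all large `n` except, possibly, the doubles of primes;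
* if some member is 4-colourable (for instance planar): for all large `n` except, possibly, the
  doubles and the triples of primes.

Proof. Let `n = p ^ c * t` with `p ^ c` large and cut the vertex set into `t` fields of order
`p ^ c`. Besides the group which fixes all the fields (library), we use the groups in which an
element of the cyclic part of an Oliver group rotates `m` of the fields, the top `q`-group
multiplying the indices by the powers of a unit `u` that generates, with `-1`, all the units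
modulo `m`. If the property is not evasive, the fixed point theorem of Oliver for the complex of
the graphs without a member gives, modulo `q`, the identity
`L (x ^ (t - m + 1)) = L (J * x ^ (t - m))`, where `L` is the signed number of the invariant graphs
without a member, `x` is the type of an independent block and `J` the type of `m` fields all joined
to each other. With `m = 2, q = 3` and `m = 3, 5, q = 2` this contradicts the known values of `L`
for every remaining `t`.
-/

namespace Pool.Agent.Results.MP_257582_lc.FourColourable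

/-- `P` is evasive: every strategy `σ` (the next pair to be queried depends only on the answers to
the queries made so far) needs all `n.choose 2` queries: there are two graphs that agree on the
first `n.choose 2 - 1` queried pairs, one with and one without `P`. -/
def Evasive {n : ℕ} (P : SimpleGraph (Fin n) → Prop) : Prop :=
  ∀ σ : Finset (Sym2 (Fin n)) → SimpleGraph (Fin n) → Sym2 (Fin n),
    (∀ (Q : Finset (Sym2 (Fin n))) (G H : SimpleGraph (Fin n)),
        (∀ e ∈ Q, (e ∈ G.edgeSet ↔ e ∈ H.edgeSet)) → σ Q G = σ Q H) →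
    ∃ G H : SimpleGraph (Fin n),
      (∀ e ∈ (fun Q : Finset (Sym2 (Fin n)) => insert (σ Q G) Q)^[n.choose 2 - 1]
            (∅ : Finset (Sym2 (Fin n))),
          (e ∈ G.edgeSet ↔ e ∈ H.edgeSet)) ∧ P G ∧ ¬ P H

/-- `G` contains a member of the family `𝓕` as a (not necessarily induced) subgraph. -/
def ContainsMember (𝓕 : Set (Σ k : ℕ, SimpleGraph (Fin k))) {V : Type} (G : SimpleGraph V) :
    Prop :=
  ∃ F ∈ 𝓕, ∃ f : Fin F.1 → V, Function.Injective f ∧ ∀ x y, F.2.Adj x y → G.Adj (f x) (f y)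

/-- The `b`-fold blow-up of `G`: every vertex is replaced by `b` independent vertices and every
edge by a complete bipartite graph. -/
def BlowUp {V : Type} (G : SimpleGraph V) (b : ℕ) : SimpleGraph (V × Fin b) where
  Adj x y := G.Adj x.1 y.1
  symm := ⟨fun _ _ h => h.symm⟩
  loopless := ⟨fun x h => G.loopless.irrefl x.1 h⟩

/-- `𝓕` is stable at `b`: if some blow-up of a finite graph contains a member of `𝓕`, then so does
its `b`-fold blow-up. -/
def StableAt (𝓕 : Set (Σ k : ℕ, SimpleGraph (Fin k))) (b : ℕ) : Prop :=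
  ∀ (m N : ℕ) (Γ : SimpleGraph (Fin m)),
    ContainsMember 𝓕 (BlowUp Γ N) → ContainsMember 𝓕 (BlowUp Γ b)

theorem containsMember_iff (𝓕 : Set (Σ k : ℕ, SimpleGraph (Fin k))) {V : Type}
    (G : SimpleGraph V) : ContainsMember 𝓕 G ↔ Pool.Agent.H98R2.Nb.Has 𝓕 G := by
  constructor
  · rintro ⟨F, hF, f, hf, hadj⟩
    exact ⟨F, hF, ⟨⟨⟨f, fun {x y} h => hadj x y h⟩, hf⟩⟩⟩
  · rintro ⟨F, hF, ⟨f⟩⟩
    exact ⟨F, hF, f, f.injective, fun x y h => f.toHom.map_adj h⟩

theorem evasive_iff (𝓕 : Set (Σ k : ℕ, SimpleGraph (Fin k))) (n : ℕ) :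
    Evasive (fun G : SimpleGraph (Fin n) => ContainsMember 𝓕 G) ↔
      Pool.Agent.W5h82.Ev.Evas (fun G : SimpleGraph (Fin n) => Pool.Agent.H98R2.Nb.Has 𝓕 G) := by
  have h : (fun G : SimpleGraph (Fin n) => ContainsMember 𝓕 G) =
      (fun G : SimpleGraph (Fin n) => Pool.Agent.H98R2.Nb.Has 𝓕 G) :=
    funext fun G => propext (containsMember_iff 𝓕 G)
  rw [h]
  rfl

theorem stable_of (𝓕 : Set (Σ k : ℕ, SimpleGraph (Fin k))) (b : ℕ)
    (h : (∀ F ∈ 𝓕, F.1 ≤ b) ∨ StableAt 𝓕 b) : Pool.Agent.W5h82.Ev.StableAt 𝓕 b := by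
  intro m N Γ hΓ
  rcases h with h | h
  · obtain ⟨F, hF, ⟨f⟩⟩ := hΓ
    refine ⟨F, hF, ⟨⟨⟨fun x => ((f x).1, Fin.castLE (h F hF) x), fun {x y} hxy => ?_⟩, ?_⟩⟩⟩
    · exact f.toHom.map_adj hxy
    · intro x y hxy
      exact Fin.castLE_injective (h F hF) (congrArg Prod.snd hxy)
  · exact (containsMember_iff 𝓕 _).1 (h m N Γ ((containsMember_iff 𝓕 _).2 hΓ))

/-- **Forbidden 3- and 4-colourable subgraphs**: containing a member of a blow-up stable family is
evasive for all large `n` which are not the double of a prime if some member is 3-colourable, and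
for all large `n` which are neither the double nor the triple of a prime if some member is
4-colourable. -/
theorem result (𝓕 : Set (Σ k : ℕ, SimpleGraph (Fin k))) (hne : 𝓕.Nonempty)
    (hedge : ∀ F ∈ 𝓕, F.2 ≠ ⊥) (b : ℕ) (hst : (∀ F ∈ 𝓕, F.1 ≤ b) ∨ StableAt 𝓕 b) :
    ((∃ F ∈ 𝓕, F.2.Colorable 3) →
      (∀ p c t : ℕ, p.Prime → 1 ≤ c → b ≤ p ^ c → (∃ F ∈ 𝓕, F.1 ≤ p ^ c) → 1 ≤ t → t ≠ 2 →
        Evasive (fun G : SimpleGraph (Fin (p ^ c * t)) => ContainsMember 𝓕 G)) ∧
      ∃ n₀ : ℕ, ∀ n : ℕ, n₀ ≤ n → (∀ p : ℕ, p.Prime → n ≠ 2 * p) →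
        Evasive (fun G : SimpleGraph (Fin n) => ContainsMember 𝓕 G)) ∧
    ((∃ F ∈ 𝓕, F.2.Colorable 4) →
      (∀ p c t : ℕ, p.Prime → 1 ≤ c → b ≤ p ^ c → (∃ F ∈ 𝓕, F.1 ≤ p ^ c) → 1 ≤ t → t ≠ 2 →
        t ≠ 3 → Evasive (fun G : SimpleGraph (Fin (p ^ c * t)) => ContainsMember 𝓕 G)) ∧
      ∃ n₀ : ℕ, ∀ n : ℕ, n₀ ≤ n → (∀ p : ℕ, p.Prime → n ≠ 2 * p ∧ n ≠ 3 * p) →
        Evasive (fun G : SimpleGraph (Fin n) => ContainsMember 𝓕 G)) := by
  classical
  have hst' := stable_of 𝓕 b hst
  simp only [evasive_iff]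
  have hn2 : ∀ p c t : ℕ, p.Prime → 1 ≤ c → 1 ≤ t → 2 ≤ p ^ c * t := by
    intro p c t hp hc ht
    have h2 : p ^ 1 ≤ p ^ c := Nat.pow_le_pow_right hp.pos hc
    rw [pow_one] at h2
    exact hp.two_le.trans (h2.trans (Nat.le_mul_of_pos_right _ ht))
  obtain ⟨F, hF⟩ := hne
  constructor
  · intro hcol
    have h1 : ∀ p c t : ℕ, p.Prime → 1 ≤ c → b ≤ p ^ c → (∃ F ∈ 𝓕, F.1 ≤ p ^ c) → 1 ≤ t →
        t ≠ 2 → Pool.Agent.W5h82.Ev.Evas
          (fun G : SimpleGraph (Fin (p ^ c * t)) => Pool.Agent.H98R2.Nb.Has 𝓕 G) := by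
      intro p c t hp hc hb hF' ht ht2
      exact Pool.Agent.H23.EV.evas_three_all hedge hst' hcol hp hc hb hF' rfl
        (hn2 p c t hp hc ht) ht2
    refine ⟨h1, ?_⟩
    obtain ⟨n₀, hn₀⟩ := Pool.Agent.H23.EV.exists_cofactor (max b F.1) {2} (by
      intro t ht
      rw [Set.mem_singleton_iff] at ht
      omega)
    refine ⟨n₀ + 1, fun n hn h => ?_⟩
    obtain ⟨p, c, t, hp, hc, hB, rfl, ht2⟩ := hn₀ n (by omega) (by
      intro p t hp ht
      rw [Set.mem_singleton_iff] at ht
      rw [ht]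
      exact h p hp)
    refine h1 p c t hp hc ((le_max_left _ _).trans hB) ⟨F, hF, (le_max_right _ _).trans hB⟩ ?_
      (by simpa using ht2)
    rcases Nat.eq_zero_or_pos t with h0 | h0
    · subst h0
      omega
    · exact h0
  · intro hcol
    have h1 : ∀ p c t : ℕ, p.Prime → 1 ≤ c → b ≤ p ^ c → (∃ F ∈ 𝓕, F.1 ≤ p ^ c) → 1 ≤ t →
        t ≠ 2 → t ≠ 3 → Pool.Agent.W5h82.Ev.Evas
          (fun G : SimpleGraph (Fin (p ^ c * t)) => Pool.Agent.H98R2.Nb.Has 𝓕 G) := by
      intro p c t hp hc hb hF' ht ht2 ht3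
      exact Pool.Agent.H23.EV.evas_four_all hedge hst' hcol hp hc hb hF' rfl
        (hn2 p c t hp hc ht) ht2 ht3
    refine ⟨h1, ?_⟩
    obtain ⟨n₀, hn₀⟩ := Pool.Agent.H23.EV.exists_cofactor (max b F.1) {2, 3} (by
      intro t ht
      rw [Set.mem_insert_iff, Set.mem_singleton_iff] at ht
      omega)
    refine ⟨n₀ + 1, fun n hn h => ?_⟩
    obtain ⟨p, c, t, hp, hc, hB, rfl, ht2⟩ := hn₀ n (by omega) (by
      intro p t hp ht
      rw [Set.mem_insert_iff, Set.mem_singleton_iff] at ht
      rcases ht with rfl | rfl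
      · exact (h p hp).1
      · exact (h p hp).2)
    rw [Set.mem_insert_iff, Set.mem_singleton_iff, not_or] at ht2
    refine h1 p c t hp hc ((le_max_left _ _).trans hB) ⟨F, hF, (le_max_right _ _).trans hB⟩ ?_
      ht2.1 ht2.2
    rcases Nat.eq_zero_or_pos t with h0 | h0
    · subst h0
      omega
    · exact h0

end Pool.Agent.Results.MP_257582_lc.FourColourable
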