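import Pool.Agent.H17.HX.Asm
import Pool.Agent.H17.HX.SP1
import Pool.Agent.H17.HX.SP2

set_option autoImplicit false

/-!
# Neighbourhood conditions are evasive for every number of vertices (MP_257582_lc)

Let `n ≥ 2` and let `φ` be a convex function on `{0, ..., n}` with slopes at most `1` (they may be
negative) and `φ 0 ≤ 0 < φ n`. The property of graphs on `n` vertices that EVERY set `D` of vertices
has at least `φ |D|` neighbours is evasive. There is no condition on the arithmetic of `n`.

Special cases, again for all `n ≥ 2` and whenever the property is not trivial: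

* the fractional matching number (= fractional vertex cover number; the term rank of the adjacency
  matrix is twice this number) is at least `s`, and at most `r` vertices are isolated (`r = 0`: the
  fractional edge cover number is at most `n - s`; `r = n`: no condition);
* at least `n - d` vertices can be assigned to neighbours such that no vertex is used more than
  `t` times (`t ≥ 1`);
* all but at most `d` vertices can be covered by vertex-disjoint stars with at least one and at most
  `t` edges (`t ≥ 2`; `d = 0` are the `[1, t]`-factors of the library).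

Proof. One may assume that `φ` is strictly increasing. `F_G(D) = φ |D| - |N_G(D)|` is supermodular; let
`D` be its smallest maximiser. As the slopes are at most `1`, `D` is independent. Let `A = N_G(D)` and
let `a ∈ A`, `u ∉ D`. If the pair `{a, u}` is added or deleted then `D` is still the smallest maximiser,
with the same neighbours. So the graphs with given `D` and `A` cancel in the Euler characteristic
`χ = ∑_{G ∈ P} (-1)^{e(G)}`, unless `A = ∅` (then `D` is the set of isolated vertices) or
`A = {a}`, `D = V \ a` (stars with more than `t` leaves, where `t` is determined by the last slopes of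
`φ`). This gives a recursion with the solution: the signed number of the graphs with `n - m` given
isolated vertices and `F` maximal at the set of these is `(-1)^m` for `m ≥ t + 2` and
`(-1)^(m-1) (m - 1)` for `m ≤ t + 1`. Finally `χ = ± C(n-1, d)` or `± (n C(n-2, J-1) - C(n-1, J))`,
`J = n - 1 - d ≥ 1`, or `± 1`, where `d` is the largest number with `φ d ≤ 0`; this is never `0`. But
`χ = 0` for a property that is not evasive.
-/

namespace Pool.Agent.Results.MP_257582_lc.NeighbourhoodProfiles

open Finset

/-- Every decision strategy `σ` (the next pair to be queried depends only on the answers to the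
queries made so far) needs all `n.choose 2` queries: there are two graphs that agree on the first
`n.choose 2 - 1` queried pairs, one with and one without `P`. -/
def Evasive {n : ℕ} (P : SimpleGraph (Fin n) → Prop) : Prop :=
  ∀ σ : Finset (Sym2 (Fin n)) → SimpleGraph (Fin n) → Sym2 (Fin n),
    (∀ (Q : Finset (Sym2 (Fin n))) (G H : SimpleGraph (Fin n)),
        (∀ e ∈ Q, (e ∈ G.edgeSet ↔ e ∈ H.edgeSet)) → σ Q G = σ Q H) →
    ∃ G H : SimpleGraph (Fin n),
      (∀ e ∈ (fun Q : Finset (Sym2 (Fin n)) => insert (σ Q G) Q)^[n.choose 2 - 1]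
            (∅ : Finset (Sym2 (Fin n))),
          (e ∈ G.edgeSet ↔ e ∈ H.edgeSet)) ∧ P G ∧ ¬ P H

/-- Every set `D` of vertices has at least `φ |D|` neighbours (vertices, in `D` or not, that are
adjacent to a vertex in `D`). -/
def Expands {n : ℕ} (φ : ℕ → ℝ) (G : SimpleGraph (Fin n)) : Prop :=
  ∀ D : Finset (Fin n), φ D.card ≤ ({v | ∃ u ∈ D, G.Adj u v}.ncard : ℝ)

/-- There is a fractional matching of total weight at least `s`: nonnegative weights `f u v = f v u`
of the edges with sum at most `1` at every vertex (the double sum counts every edge twice). -/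
def FractionalMatching {n : ℕ} (s : ℝ) (G : SimpleGraph (Fin n)) : Prop :=
  ∃ f : Fin n → Fin n → ℝ, (∀ u v, 0 ≤ f u v) ∧ (∀ u v, f u v = f v u) ∧
    (∀ u v, ¬ G.Adj u v → f u v = 0) ∧ (∀ u, ∑ v, f u v ≤ 1) ∧ 2 * s ≤ ∑ u, ∑ v, f u v

/-- At most `r` vertices are isolated. -/
def FewIsolated {n : ℕ} (r : ℕ) (G : SimpleGraph (Fin n)) : Prop :=
  {v | ∀ u, ¬ G.Adj u v}.ncard ≤ r

/-- At least `n - d` vertices `v` can be assigned to neighbours `m v` such that no vertex is used more
than `t` times. -/
def Assignable {n : ℕ} (t d : ℕ) (G : SimpleGraph (Fin n)) : Prop :=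
  ∃ (S : Finset (Fin n)) (m : Fin n → Fin n), n ≤ S.card + d ∧ (∀ v ∈ S, G.Adj v (m v)) ∧
    ∀ u, (S.filter fun v => m v = u).card ≤ t

/-- All but at most `d` vertices can be covered by vertex-disjoint stars with at least one and at most
`t` edges: `C` is the set of the centres, `L` the set of the leaves, `c v` the centre of the leaf `v`. -/
def StarPacking {n : ℕ} (t d : ℕ) (G : SimpleGraph (Fin n)) : Prop :=
  ∃ (C L : Finset (Fin n)) (c : Fin n → Fin n), Disjoint C L ∧ n ≤ C.card + L.card + d ∧
    (∀ v ∈ L, c v ∈ C ∧ G.Adj v (c v)) ∧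
    ∀ u ∈ C, 1 ≤ (L.filter fun v => c v = u).card ∧ (L.filter fun v => c v = u).card ≤ t

theorem nb_ncard {n : ℕ} (G : SimpleGraph (Fin n)) (D : Finset (Fin n)) :
    {v | ∃ u ∈ D, G.Adj u v}.ncard = (Pool.Agent.H17.HX.nb G D).card := by
  rw [← Set.ncard_coe_finset]
  congr 1
  ext v
  simp [Pool.Agent.H17.HX.mem_nb]

theorem evasive_expands {n : ℕ} (hn : 2 ≤ n) (φ : ℕ → ℝ) (h1 : ∀ j, j < n → φ (j + 1) ≤ φ j + 1)
    (h2 : ∀ j, j + 2 ≤ n → φ (j + 1) - φ j ≤ φ (j + 2) - φ (j + 1)) (h0 : φ 0 ≤ 0)
    (h3 : 0 < φ n) : Evasive (Expands (n := n) φ) := by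
  have h := Pool.Agent.H17.HX.evasive_profile hn φ h1 h2 h0 h3
  have h4 : (Expands (n := n) φ) =
      fun G : SimpleGraph (Fin n) => ∀ D : Finset (Fin n), φ D.card ≤
        ((Pool.Agent.H17.HX.nb G D).card : ℝ) := by
    ext G
    unfold Expands
    simp only [nb_ncard]
  rw [h4]
  exact h

theorem few_iff {n : ℕ} (hn : 2 ≤ n) (r : ℕ) (G : SimpleGraph (Fin n)) :
    FewIsolated r G ↔ ∀ D : Finset (Fin n), ((D.card : ℝ) - r) / n ≤
      ((Pool.Agent.H17.HX.nb G D).card : ℝ) := by
  classical
  have hn0 : (0 : ℝ) < n := by exact_mod_cast (by omega : 0 < n)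
  constructor
  · intro h D
    by_cases hD : D.card ≤ r
    · have h1 : ((D.card : ℝ) - r) / n ≤ 0 := by
        apply div_nonpos_of_nonpos_of_nonneg _ hn0.le
        have : (D.card : ℝ) ≤ r := by exact_mod_cast hD
        linarith
      exact h1.trans (Nat.cast_nonneg _)
    · push Not at hD
      have h2 : (Pool.Agent.H17.HX.nb G D).Nonempty := by
        by_contra hcon
        rw [Finset.not_nonempty_iff_eq_empty] at hcon
        have h3 : (D : Set (Fin n)) ⊆ {v | ∀ u, ¬ G.Adj u v} := by
          intro v hv u huv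
          have : u ∈ Pool.Agent.H17.HX.nb G D := Pool.Agent.H17.HX.mem_nb.2 ⟨v, hv, huv.symm⟩
          rw [hcon] at this
          simp at this
        have h4 := Set.ncard_le_ncard h3 (Set.toFinite _)
        rw [Set.ncard_coe_finset] at h4
        exact absurd (h4.trans h) (by omega)
      have h5 : (1 : ℝ) ≤ ((Pool.Agent.H17.HX.nb G D).card : ℝ) := by
        exact_mod_cast h2.card_pos
      refine le_trans ?_ h5
      rw [div_le_one hn0]
      have h6 : (D.card : ℝ) ≤ n := by
        have := Finset.card_le_univ D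
        rw [Fintype.card_fin] at this
        exact_mod_cast this
      have : (0 : ℝ) ≤ r := Nat.cast_nonneg r
      linarith
  · intro h
    have h1 := h (Set.toFinite {v | ∀ u, ¬ G.Adj u v}).toFinset
    have h2 : Pool.Agent.H17.HX.nb G (Set.toFinite {v | ∀ u, ¬ G.Adj u v}).toFinset = ∅ := by
      rw [Finset.eq_empty_iff_forall_notMem]
      intro v hv
      rw [Pool.Agent.H17.HX.mem_nb] at hv
      obtain ⟨u, hu, huv⟩ := hv
      rw [Set.Finite.mem_toFinset] at hu
      exact hu v huv.symm
    rw [h2, Finset.card_empty, Nat.cast_zero, div_nonpos_iff] at h1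
    have h3 : (((Set.toFinite {v | ∀ u, ¬ G.Adj u v}).toFinset.card : ℝ)) ≤ r := by
      rcases h1 with h1 | h1
      · linarith [h1.2]
      · linarith [h1.1]
    unfold FewIsolated
    rw [Set.ncard_eq_toFinset_card _ (Set.toFinite _)]
    exact_mod_cast h3

theorem evasive_fractional {n : ℕ} (hn : 2 ≤ n) (s : ℝ) (r : ℕ) (hs2 : 2 * s ≤ n)
    (hr : r ≤ n) (h : 0 < s ∨ r < n) :
    Evasive (fun G : SimpleGraph (Fin n) => FractionalMatching s G ∧ FewIsolated r G) := by
  have hn0 : (0 : ℝ) < n := by exact_mod_cast (by omega : 0 < n)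
  have hn2 : (2 : ℝ) ≤ n := by exact_mod_cast hn
  have hr' : (r : ℝ) ≤ n := by exact_mod_cast hr
  have h1 : (fun G : SimpleGraph (Fin n) => FractionalMatching s G ∧ FewIsolated r G) =
      Expands (fun j => max ((j : ℝ) - (n - 2 * s)) (((j : ℝ) - r) / n)) := by
    ext G
    have h2 : FractionalMatching s G ↔ ∀ D : Finset (Fin n), (D.card : ℝ) - (n - 2 * s) ≤
        ((Pool.Agent.H17.HX.nb G D).card : ℝ) :=
      Pool.Agent.H17.HX.frac (fun R _ t d => by
        have h := Pool.Agent.H17.HX.hall R t d
        convert h) G s hs2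
    rw [h2, few_iff hn]
    unfold Expands
    simp only [nb_ncard, max_le_iff]
    exact forall_and.symm
  rw [h1]
  have hstep : (1 : ℝ) / n ≤ 1 := by
    rw [div_le_one hn0]; linarith
  have hpos : (0 : ℝ) < 1 / n := by positivity
  have hlin : ∀ j : ℕ, (((j + 1 : ℕ) : ℝ) - r) / n = ((j : ℝ) - r) / n + 1 / n := by
    intro j
    push_cast
    ring
  apply evasive_expands hn
  · intro j _
    rw [hlin, ← max_add_add_right]
    apply max_le_max
    · push_cast; linarith
    · linarith
  · intro j _
    have e1 : ((j + 2 : ℕ) : ℝ) - (n - 2 * s) = ((j : ℝ) - (n - 2 * s)) + 2 := by push_cast; ring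
    have e2 : ((j + 1 : ℕ) : ℝ) - (n - 2 * s) = ((j : ℝ) - (n - 2 * s)) + 1 := by push_cast; ring
    have e3 : (((j + 2 : ℕ) : ℝ) - r) / n = ((j : ℝ) - r) / n + 1 / n + 1 / n := by
      push_cast; ring
    simp only [e1, e2, e3, hlin]
    generalize ((j : ℝ) - (n - 2 * s)) = x
    generalize ((j : ℝ) - r) / n = y
    generalize (1 : ℝ) / n = e at *
    rcases le_total (x + 1) (y + e) with h3 | h3
    · rw [max_eq_right h3]
      have h4 := le_max_right (x + 2) (y + e + e)
      have h5 := le_max_right x y
      linarith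
    · rw [max_eq_left h3]
      have h4 := le_max_left (x + 2) (y + e + e)
      have h5 : x ⊔ y ≥ x := le_max_left x y
      linarith
  · rw [max_le_iff]
    constructor
    · push_cast; linarith
    · apply div_nonpos_of_nonpos_of_nonneg _ hn0.le
      push_cast
      have : (0 : ℝ) ≤ r := Nat.cast_nonneg r
      linarith
  · rw [lt_max_iff]
    rcases h with h | h
    · left; linarith
    · right
      apply div_pos _ hn0
      have : (r : ℝ) < n := by exact_mod_cast h
      linarith

theorem assignable_iff {n : ℕ} (t d : ℕ) (ht : 1 ≤ t) (G : SimpleGraph (Fin n)) :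
    Assignable t d G ↔ Expands (fun j => ((j : ℝ) - d) / t) G := by
  classical
  have ht0 : (0 : ℝ) < t := by exact_mod_cast ht
  have h1 := Pool.Agent.H17.HX.hall (V := Fin n) G.Adj t d
  rw [Fintype.card_fin] at h1
  unfold Assignable
  rw [← h1]
  unfold Expands
  apply forall_congr'
  intro D
  rw [nb_ncard, div_le_iff₀ ht0, sub_le_iff_le_add]
  have h2 : ∀ (inst : DecidablePred fun v => ∃ u ∈ D, G.Adj u v),
      (@Finset.filter _ (fun v => ∃ u ∈ D, G.Adj u v) inst univ) = Pool.Agent.H17.HX.nb G D := by
    intro inst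
    ext v
    simp [Pool.Agent.H17.HX.mem_nb]
  rw [h2 _]
  constructor
  · intro h
    have : ((D.card : ℕ) : ℝ) ≤ ((t * (Pool.Agent.H17.HX.nb G D).card + d : ℕ) : ℝ) := by
      exact_mod_cast h
    push_cast at this
    linarith
  · intro h
    have : ((D.card : ℕ) : ℝ) ≤ ((t * (Pool.Agent.H17.HX.nb G D).card + d : ℕ) : ℝ) := by
      push_cast
      linarith
    exact_mod_cast this

theorem evasive_assignable {n : ℕ} (hn : 2 ≤ n) (t d : ℕ) (ht : 1 ≤ t) (hd : d < n) :
    Evasive (Assignable (n := n) t d) := by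
  have ht0 : (0 : ℝ) < t := by exact_mod_cast ht
  have ht1 : (1 : ℝ) ≤ t := by exact_mod_cast ht
  have h1 : (Assignable (n := n) t d) = Expands (fun j => ((j : ℝ) - d) / t) := by
    ext G
    exact assignable_iff t d ht G
  rw [h1]
  have hstep : (1 : ℝ) / t ≤ 1 := by
    rw [div_le_one ht0]; linarith
  apply evasive_expands hn
  · intro j _
    have : (((j + 1 : ℕ) : ℝ) - d) / t = ((j : ℝ) - d) / t + 1 / t := by
      push_cast; ring
    rw [this]
    linarith
  · intro j _
    have h3 : (((j + 1 : ℕ) : ℝ) - d) / t = ((j : ℝ) - d) / t + 1 / t := by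
      push_cast; ring
    have h4 : (((j + 2 : ℕ) : ℝ) - d) / t = ((j : ℝ) - d) / t + 1 / t + 1 / t := by
      push_cast; ring
    rw [h3, h4]
    linarith
  · apply div_nonpos_of_nonpos_of_nonneg _ ht0.le
    push_cast
    have : (0 : ℝ) ≤ d := Nat.cast_nonneg d
    linarith
  · apply div_pos _ ht0
    have : (d : ℝ) < n := by exact_mod_cast hd
    linarith

theorem star_iff {n : ℕ} (t d : ℕ) (ht : 2 ≤ t) (G : SimpleGraph (Fin n)) :
    StarPacking t d G ↔ Assignable t d G := by
  classical
  constructor
  · rintro ⟨C, L, c, h0, h1, h2, h3⟩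
    obtain ⟨m, h4, h5⟩ := Pool.Agent.H17.HX.assign_of_star G t (by omega) C L c h0 h2 h3
    refine ⟨C ∪ L, m, ?_, h4, h5⟩
    rw [Finset.card_union_of_disjoint h0]
    exact h1
  · rintro ⟨S, m, h1, h2, h3⟩
    obtain ⟨C, L, c, h4, _, h6, h7, h8⟩ := Pool.Agent.H17.HX.star_of_assign G t ht m S h2 h3
    refine ⟨C, L, c, h4, ?_, h7, h8⟩
    have h9 := Finset.card_le_card h6
    rw [Finset.card_union_of_disjoint h4] at h9
    omega

theorem evasive_star {n : ℕ} (hn : 2 ≤ n) (t d : ℕ) (ht : 2 ≤ t) (hd : d < n) :
    Evasive (StarPacking (n := n) t d) := by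
  have h1 : (StarPacking (n := n) t d) = Assignable t d := by
    ext G
    exact star_iff t d ht G
  rw [h1]
  exact evasive_assignable hn t d (by omega) hd

/-- **Neighbourhood conditions are evasive.** -/
theorem result (n : ℕ) (hn : 2 ≤ n) :
    -- (1) convex profiles with slopes at most 1
    (∀ φ : ℕ → ℝ, (∀ j, j < n → φ (j + 1) - φ j ≤ 1) →
      (∀ j, j + 2 ≤ n → φ (j + 1) - φ j ≤ φ (j + 2) - φ (j + 1)) → φ 0 ≤ 0 → 0 < φ n →
      Evasive (Expands (n := n) φ)) ∧
    -- (2) fractional matching number at least `s` and at most `r` isolated vertices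
    (∀ (s : ℝ) (r : ℕ), 2 * s ≤ n → r ≤ n → (0 < s ∨ r < n) →
      Evasive (fun G : SimpleGraph (Fin n) => FractionalMatching s G ∧ FewIsolated r G)) ∧
    -- (3) assignments with capacity `t` and deficiency `d`
    (∀ t d : ℕ, 1 ≤ t → d < n → Evasive (Assignable (n := n) t d)) ∧
    -- (4) packings of stars with at most `t` edges that miss at most `d` vertices
    (∀ t d : ℕ, 2 ≤ t → d < n → Evasive (StarPacking (n := n) t d)) :=
  ⟨fun φ h1 h2 h0 h3 => evasive_expands hn φ (fun j hj => by linarith [h1 j hj]) h2 h0 h3,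
    fun s r h1 h2 h3 => evasive_fractional hn s r h1 h2 h3,
    fun t d ht hd => evasive_assignable hn t d ht hd,
    fun t d ht hd => evasive_star hn t d ht hd⟩

end Pool.Agent.Results.MP_257582_lc.NeighbourhoodProfiles
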