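import Mathlib
import Pool.Agent.H8.KA.Final2
import Pool.Agent.H8.KA.L20o.Fin
import Pool.Agent.H8.KA.L20e.Fin

set_option autoImplicit false

/-!
# MP_257582_lc: every monotone graph property has query complexity at least `(2/5 - o(1)) n^2`

For every `ε > 0` and all large `n`, every non-trivial monotone isomorphism invariant property of
graphs on `n` vertices and every adaptive strategy with fewer than `(2/5 - ε) n^2` queries there
are two graphs, one with and one without the property, that agree on all queried pairs.

Proof.  The reduction of Kahn, Saks and Sturtevant leaves properties that fail for graphs with an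
isolated vertex and hold for graphs with a universal vertex.  Let `p` be a prime slightly below
`n / 5`; split the vertices into five blocks of size `p` and two small parts of sizes `s` and `r`,
where `3 p + s` is a prime.  For the `2 ^ 28` graphs that are unions of complete bipartite graphs
between parts and cliques on parts, Smith and Lefschetz theory gives alternating relations between
the values of the property, for families of orbits with at least `20` units of size `p ^ 2 / 2`.
The groups: the affine group over `p` acting on all five blocks, extended by a permutation of the
blocks; the affine group over `3 p + s` acting on three blocks and a small part; the affine group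
over `p` acting on four (three) blocks together with a cyclic group acting on the union of the
small parts and the other block (the other two blocks), which has to be odd, that is, `n` odd
(even).  Together with monotonicity, the permutations of the blocks and the exchange of the small
parts with pieces of a block, these relations are inconsistent: for each parity of `n` a
certificate (found by a search program) is checked by the kernel; `n` odd: 1020 relations between
11001 values, 32416 clauses; `n` even: 1063 relations between 12781 values, 66296 clauses.

The facts about the values and the check of the tables are in `Pool.Agent.H8.KA` (helper8), the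
checker of the clauses in `Pool.Agent.H23.KD` (helper23); the certificates were found by helper40,
helper5 and helper64.
-/

namespace Pool.Agent.Results.MP_257582_lc.TwoFifths

/-- Every non-trivial monotone graph property has query complexity at least
`(2/5 - o(1)) n^2`. -/
theorem result : ∀ ε : ℝ, 0 < ε → ∃ N : ℕ, ∀ n : ℕ, N ≤ n →
    ∀ P : SimpleGraph (Fin n) → Prop,
      (∀ G H : SimpleGraph (Fin n), G ≤ H → P G → P H) →
      (∀ (σ : Fin n ≃ Fin n) (G : SimpleGraph (Fin n)), P G → P (G.map σ.toEmbedding)) →
      (∃ G : SimpleGraph (Fin n), P G) →
      (∃ G : SimpleGraph (Fin n), ¬ P G) →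
      ∀ s : Finset (Sym2 (Fin n)) → SimpleGraph (Fin n) → Sym2 (Fin n),
        (∀ (Q : Finset (Sym2 (Fin n))) (G H : SimpleGraph (Fin n)),
            (∀ e ∈ Q, (e ∈ G.edgeSet ↔ e ∈ H.edgeSet)) → s Q G = s Q H) →
        ∀ q : ℕ, (q : ℝ) < (2 / 5 - ε) * (n : ℝ) ^ 2 →
          ∃ G H : SimpleGraph (Fin n),
            (∀ e ∈ (fun Q : Finset (Sym2 (Fin n)) => insert (s Q G) Q)^[q]
                  (∅ : Finset (Sym2 (Fin n))),
                (e ∈ G.edgeSet ↔ e ∈ H.edgeSet)) ∧ P G ∧ ¬ P H := by
  intro ε hε
  obtain ⟨N, hN⟩ := Pool.Agent.H8.KA.final2 20 (by norm_num) (by norm_num)
    (fun f hf => hf.elim (Pool.Agent.H8.KA.L20o.cert f) (Pool.Agent.H8.KA.L20e.cert f)) ε hε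
  refine ⟨N, fun n hn P hmono hiso h1 h0 s hs q hq => hN n hn P hiso hmono h1 h0 s hs q ?_⟩
  have h : ((20 : ℕ) : ℝ) / 50 = 2 / 5 := by norm_num
  rw [h]
  exact hq

end Pool.Agent.Results.MP_257582_lc.TwoFifths
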